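import Pool.Agent.Helper868.Pal.P_final

set_option autoImplicit false

namespace Pool.Agent.Results.MP_f6e863_co.ReversalPalindromic

/-- The morphism `φ : A* → A*` given by the images of the letters, applied to a finite word. -/
def applyWord {α : Type} (φ : α → List α) (w : List α) : List α := w.flatMap φ

/-- `φ` is primitive: there is `k ≥ 1` such that for all letters `a`, `b` the letter `b` occurs in
`φ^k(a)`. -/
def IsPrimitive {α : Type} (φ : α → List α) : Prop :=
  ∃ k : ℕ, 1 ≤ k ∧ ∀ a b : α, b ∈ (applyWord φ)^[k] [a]

/-- The factor `u_i u_{i+1} ⋯ u_{i+n-1}` of the right-infinite word `u`. -/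
def factor {α : Type} (u : ℕ → α) (i n : ℕ) : List α := (List.range n).map (fun j => u (i + j))

/-- `u` is a fixed point of `φ`: the image of every prefix of `u` is a prefix of `u`. (For a
primitive, hence non-erasing, morphism this says `φ(u) = u`.) -/
def IsFixedPoint {α : Type} (φ : α → List α) (u : ℕ → α) : Prop :=
  ∀ n : ℕ, ∃ m : ℕ, applyWord φ (factor u 0 n) = factor u 0 m

/-- The language of `u`: the set of its finite factors. -/
def language {α : Type} (u : ℕ → α) : Set (List α) := {w | ∃ i n : ℕ, w = factor u i n}

/-- A set of words is closed under reversal. -/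
def ClosedUnderReversal {α : Type} (L : Set (List α)) : Prop := ∀ w ∈ L, w.reverse ∈ L

/-- `u` is palindromic: infinitely many distinct palindromes are factors of `u`. -/
def IsPalindromic {α : Type} (u : ℕ → α) : Prop :=
  {w : List α | w ∈ language u ∧ w.reverse = w}.Infinite

lemma length_factor {α : Type} (u : ℕ → α) (i n : ℕ) : (factor u i n).length = n := by
  simp [factor]

/-- For every finite alphabet, every primitive morphism and every fixed point `u` of it, the
language of `u` is closed under reversal if and only if `u` has infinitely many palindromic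
factors. -/
theorem result (α : Type) [Finite α] (φ : α → List α) (u : ℕ → α) (hφ : IsPrimitive φ)
    (hu : IsFixedPoint φ u) : ClosedUnderReversal (language u) ↔ IsPalindromic u := by
  have := Fintype.ofFinite α
  have h0 : ∀ n, (List.range n).map u = factor u 0 n := by
    intro n; simp [factor]
  have hu' : ∀ n : ℕ, ((List.range n).map u).flatMap φ =
      (List.range (((List.range n).map u).flatMap φ).length).map u := by
    intro n
    obtain ⟨m, hm⟩ := hu n
    rw [h0 n]
    have h1 : (factor u 0 n).flatMap φ = factor u 0 m := hm
    rw [h1, length_factor, h0]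
  have key := Pool.H868.Pal.final α φ u hφ hu'
  have hL : ClosedUnderReversal (language u) ↔ (∀ i n : ℕ, ∃ i' : ℕ,
      (List.range n).map (fun j => u (i' + j)) =
        ((List.range n).map (fun j => u (i + j))).reverse) := by
    constructor
    · intro h i n
      obtain ⟨i', n', h'⟩ := h (factor u i n) ⟨i, n, rfl⟩
      have hn : n' = n := by
        have := congrArg List.length h'
        rw [List.length_reverse, length_factor, length_factor] at this
        exact this.symm
      subst hn
      exact ⟨i', h'.symm⟩
    · rintro h w ⟨i, n, rfl⟩
      obtain ⟨i', h'⟩ := h i n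
      exact ⟨i', n, h'.symm⟩
  have hS : {w : List α | w ∈ language u ∧ w.reverse = w} =
      {w : List α | (∃ i : ℕ, w = (List.range w.length).map (fun j => u (i + j))) ∧
            w.reverse = w} := by
    ext w
    simp only [Set.mem_setOf_eq]
    refine and_congr_left fun _ => ?_
    constructor
    · rintro ⟨i, n, rfl⟩
      refine ⟨i, ?_⟩
      rw [length_factor]; rfl
    · rintro ⟨i, h⟩
      exact ⟨i, w.length, h⟩
  unfold IsPalindromic
  rw [hL, hS]
  exact key

end Pool.Agent.Results.MP_f6e863_co.ReversalPalindromic
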